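import Mathlib

/-!
# The gap between the fractional greedy bound and the induced-subgraph density bound

We show that `g(n) ≥ c n / (log n)^2`.
-/

set_option autoImplicit false

namespace Pool.Agent.Results.MP_28a56a_co.NearLinearGap

open Finset

/-! ### A random half of the pairs outside a background set -/

section half

variable {n : ℕ}

/-- The pairs outside `F` in a rectangle. -/
def outside (F : Finset (Fin n × Fin n)) (X Y : Finset (Fin n)) : Finset (Fin n × Fin n) :=
  Fᶜ ∩ X ×ˢ Y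

theorem sum_inv_pow (hn : 1 ≤ n) :
    ∑ X ∈ (univ : Finset (Finset (Fin n))).filter (fun X => X.Nonempty),
      ((1 : ℝ) / (4 * n)) ^ X.card ≤ 1 / 3 := by
  have hn' : (1 : ℝ) ≤ n := by exact_mod_cast hn
  have h1 : ∑ X : Finset (Fin n), ((1 : ℝ) / (4 * n)) ^ X.card = (1 / (4 * n) + 1) ^ n := by
    have := Fintype.sum_pow_mul_eq_add_pow (Fin n) ((1 : ℝ) / (4 * n)) 1
    simpa using this
  have h2 : ∑ X : Finset (Fin n), ((1 : ℝ) / (4 * n)) ^ X.card =
      ∑ X ∈ (univ : Finset (Finset (Fin n))).filter (fun X => X.Nonempty),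
        ((1 : ℝ) / (4 * n)) ^ X.card + 1 := by
    rw [← Finset.sum_filter_add_sum_filter_not univ (fun X : Finset (Fin n) => X.Nonempty)]
    congr 1
    have : (univ : Finset (Finset (Fin n))).filter (fun X => ¬ X.Nonempty) = {∅} := by
      ext X
      simp [Finset.not_nonempty_iff_eq_empty]
    rw [this]
    simp
  have h3 : ((1 : ℝ) / (4 * n) + 1) ^ n ≤ 4 / 3 := by
    -- `(1 + x)^n (1 - n x) ≤ 1`
    have hx : (0 : ℝ) < 1 / (4 * n) := by positivity
    have hb : (1 : ℝ) - n * (1 / (4 * n)) ≤ (1 - 1 / (4 * n)) ^ n := by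
      have := one_add_mul_le_pow (a := -(1 / (4 * (n : ℝ)))) (by
        have : (1 : ℝ) / (4 * n) ≤ 1 := by
          rw [div_le_one (by positivity)]
          linarith
        linarith) n
      have e : (1 : ℝ) + -(1 / (4 * n)) = 1 - 1 / (4 * n) := by ring
      rw [e] at this
      linarith
    have hq : (1 : ℝ) - n * (1 / (4 * n)) = 3 / 4 := by
      field_simp
      norm_num
    rw [hq] at hb
    have h4 : ((1 : ℝ) / (4 * n) + 1) ^ n * (1 - 1 / (4 * n)) ^ n ≤ 1 := by
      rw [← mul_pow]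
      apply pow_le_one₀
      · have : (1 : ℝ) / (4 * n) ≤ 1 := by
          rw [div_le_one (by positivity)]
          linarith
        apply mul_nonneg <;> linarith
      · nlinarith
    have h5 : (0 : ℝ) < ((1 : ℝ) / (4 * n) + 1) ^ n := by positivity
    nlinarith
  linarith

theorem exists_half (hn : 1 ≤ n) (F : Finset (Fin n × Fin n)) (L : ℕ) (hL : 4 * n ≤ 2 ^ L) :
    ∃ S ⊆ Fᶜ, Fᶜ.card ≤ 2 * S.card ∧ ∀ X Y : Finset (Fin n), X.Nonempty → Y.Nonempty →
      X ×ˢ Y ⊆ S ∪ F → (S ∩ X ×ˢ Y).card < L * (X.card + Y.card) := by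
  classical
  by_contra hcon
  push Not at hcon
  have hn' : (1 : ℝ) ≤ n := by exact_mod_cast hn
  set D := Fᶜ with hD
  let good := D.powerset.filter fun S => D.card ≤ 2 * S.card
  let bad := fun p : Finset (Fin n) × Finset (Fin n) =>
    if L * (p.1.card + p.2.card) ≤ (outside F p.1 p.2).card then Finset.Icc (outside F p.1 p.2) D
    else ∅
  let idx := ((univ : Finset (Finset (Fin n))).filter (fun X => X.Nonempty)) ×ˢ
    ((univ : Finset (Finset (Fin n))).filter (fun X => X.Nonempty))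
  -- every good set is bad for some rectangle
  have hcov : good ⊆ idx.biUnion bad := by
    intro S hS
    simp only [good, mem_filter, mem_powerset] at hS
    obtain ⟨X, Y, hX, hY, hsub, hcard⟩ := hcon S hS.1 hS.2
    rw [mem_biUnion]
    refine ⟨(X, Y), by simp [idx, hX, hY], ?_⟩
    have hout : outside F X Y = S ∩ X ×ˢ Y := by
      ext z
      simp only [outside, mem_inter]
      constructor
      · rintro ⟨h1, h2⟩
        rcases mem_union.1 (hsub h2) with h3 | h3
        · exact ⟨h3, h2⟩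
        · exact absurd h3 (mem_compl.1 h1)
      · rintro ⟨h1, h2⟩
        exact ⟨hS.1 h1, h2⟩
    simp only [bad]
    rw [if_pos (by rw [hout]; exact hcard)]
    rw [Finset.mem_Icc, hout]
    exact ⟨inter_subset_left, hS.1⟩
  -- half of the sets are good
  have hhalf : 2 ^ D.card ≤ 2 * good.card := by
    have h1 : D.powerset = good ∪ good.image (fun S => D \ S) := by
      ext S
      simp only [good, mem_union, mem_image, mem_filter, mem_powerset]
      constructor
      · intro hS
        by_cases h : D.card ≤ 2 * S.card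
        · exact Or.inl ⟨hS, h⟩
        · right
          refine ⟨D \ S, ⟨sdiff_subset, ?_⟩, ?_⟩
          · rw [card_sdiff_of_subset hS]
            have := card_le_card hS
            omega
          · exact Finset.sdiff_sdiff_eq_self hS
      · rintro (h | ⟨T, h, rfl⟩)
        · exact h.1
        · exact sdiff_subset
    have h2 := card_union_le good (good.image (fun S => D \ S))
    rw [← h1, card_powerset] at h2
    have h3 : (good.image (fun S => D \ S)).card ≤ good.card := card_image_le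
    omega
  -- the union bound
  have hbad : ∀ p ∈ idx, ((bad p).card : ℝ) ≤
      2 ^ D.card * (((1 : ℝ) / (4 * n)) ^ p.1.card * ((1 : ℝ) / (4 * n)) ^ p.2.card) := by
    intro p _
    simp only [bad]
    split_ifs with h
    · have hsub : outside F p.1 p.2 ⊆ D := inter_subset_left
      rw [card_Icc_finset hsub]
      have hle := card_le_card hsub
      have h1 : (2 : ℝ) ^ (D.card - (outside F p.1 p.2).card) * 2 ^ (outside F p.1 p.2).card =
          2 ^ D.card := by
        rw [← pow_add]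
        congr 1
        omega
      have h2 : (4 * n : ℝ) ^ (p.1.card + p.2.card) ≤ 2 ^ (outside F p.1 p.2).card := by
        calc (4 * n : ℝ) ^ (p.1.card + p.2.card) ≤ (2 ^ L) ^ (p.1.card + p.2.card) := by
              apply pow_le_pow_left₀ (by positivity)
              exact_mod_cast hL
          _ = 2 ^ (L * (p.1.card + p.2.card)) := by rw [← pow_mul]
          _ ≤ 2 ^ (outside F p.1 p.2).card := by
              apply pow_le_pow_right₀ (by norm_num) h
      rw [← pow_add, one_div, inv_pow]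
      rw [← h1]
      have h3 : (0 : ℝ) < (4 * n : ℝ) ^ (p.1.card + p.2.card) := by positivity
      rw [mul_assoc]
      push_cast
      apply le_mul_of_one_le_right (by positivity)
      rw [← div_eq_mul_inv, one_le_div h3]
      exact h2
    · simp only [card_empty, Nat.cast_zero]
      positivity
  have hsum : (good.card : ℝ) ≤ 2 ^ D.card * (1 / 9) := by
    calc (good.card : ℝ) ≤ ((idx.biUnion bad).card : ℝ) := by exact_mod_cast card_le_card hcov
      _ ≤ ((∑ p ∈ idx, (bad p).card : ℕ) : ℝ) := by exact_mod_cast card_biUnion_le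
      _ = ∑ p ∈ idx, ((bad p).card : ℝ) := by push_cast; rfl
      _ ≤ ∑ p ∈ idx, 2 ^ D.card * (((1 : ℝ) / (4 * n)) ^ p.1.card *
            ((1 : ℝ) / (4 * n)) ^ p.2.card) := sum_le_sum hbad
      _ = 2 ^ D.card * ((∑ X ∈ (univ : Finset (Finset (Fin n))).filter (fun X => X.Nonempty),
            ((1 : ℝ) / (4 * n)) ^ X.card) *
            (∑ X ∈ (univ : Finset (Finset (Fin n))).filter (fun X => X.Nonempty),
            ((1 : ℝ) / (4 * n)) ^ X.card)) := by
          rw [← mul_sum, sum_mul_sum, ← sum_product']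
      _ ≤ 2 ^ D.card * (1 / 3 * (1 / 3)) := by
          apply mul_le_mul_of_nonneg_left _ (by positivity)
          apply mul_le_mul (sum_inv_pow hn) (sum_inv_pow hn) (sum_nonneg fun _ _ => by positivity)
            (by norm_num)
      _ = 2 ^ D.card * (1 / 9) := by norm_num
  have h1 : (2 : ℝ) ^ D.card ≤ 2 * good.card := by exact_mod_cast hhalf
  have h2 : (0 : ℝ) < 2 ^ D.card := by positivity
  nlinarith

end half

/-! ### Random functions -/

section random

variable {n K m : ℕ}

/-- The number of elements of `X` which get the colour `c`. -/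
def hit (c : Fin K) (h : Fin n → Fin K) (X : Finset (Fin n)) : ℕ :=
  (X.filter fun x => h x = c).card

theorem mgf (c : Fin K) (X : Finset (Fin n)) :
    ∑ h : Fin n → Fin K, ((1 : ℝ) / 2) ^ hit c h X =
      K ^ n * (1 - 1 / ((2 * K : ℕ) : ℝ)) ^ X.card := by
  classical
  have hK : (0 : ℝ) < K := by
    have := c.pos
    exact_mod_cast this
  have h1 : ∀ h : Fin n → Fin K, ((1 : ℝ) / 2) ^ hit c h X =
      ∏ x, (if x ∈ X ∧ h x = c then (1 : ℝ) / 2 else 1) := by
    intro h
    rw [prod_ite, prod_const, prod_const_one, mul_one]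
    congr 1
    unfold hit
    congr 1
    ext x
    simp
  simp_rw [h1]
  rw [← Fintype.prod_sum (fun (x : Fin n) (d : Fin K) =>
    if x ∈ X ∧ d = c then (1 : ℝ) / 2 else 1)]
  have h2 : ∀ x : Fin n, ∑ d : Fin K, (if x ∈ X ∧ d = c then (1 : ℝ) / 2 else 1) =
      K * (if x ∈ X then (1 - 1 / ((2 * K : ℕ) : ℝ)) else 1) := by
    intro x
    by_cases hx : x ∈ X
    · simp only [hx, true_and, if_true]
      have : ∀ d : Fin K, (if d = c then (1 : ℝ) / 2 else 1) = 1 - (if d = c then 1 / 2 else 0) := by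
        intro d
        split_ifs <;> norm_num
      simp_rw [this]
      rw [sum_sub_distrib, sum_ite_eq' univ c]
      simp only [sum_const, card_univ, Fintype.card_fin, nsmul_eq_mul, mul_one, mem_univ, if_true]
      push_cast
      field_simp
    · simp [hx]
  simp_rw [h2]
  rw [prod_mul_distrib, prod_const, card_univ, Fintype.card_fin, prod_ite, prod_const,
    prod_const_one, mul_one]
  congr 3
  ext x
  simp

theorem pow_half (hK : 1 ≤ K) : (1 - 1 / ((2 * K : ℕ) : ℝ)) ^ (2 * K) ≤ 1 / 2 := by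
  have h1 := Real.one_sub_div_pow_le_exp_neg (n := 2 * K) (t := 1) (by
    have : (1 : ℝ) ≤ ((2 * K : ℕ) : ℝ) := by
      exact_mod_cast (show 1 ≤ 2 * K by omega)
    exact this)
  refine h1.trans ?_
  rw [Real.exp_neg, one_div]
  apply inv_anti₀ (by norm_num)
  have := Real.exp_one_gt_d9
  linarith

theorem bad_count (c : Fin K) (q : ℕ) (X : Finset (Fin n)) (hX : X.card = 4 * K * q) :
    (((univ : Finset (Fin n → Fin K)).filter fun h => hit c h X < q).card : ℝ) ≤
      K ^ n * (1 / 2) ^ q := by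
  have hK1 : 1 ≤ K := c.pos
  have hK : (0 : ℝ) < K := by exact_mod_cast hK1
  have h1 : (((univ : Finset (Fin n → Fin K)).filter fun h => hit c h X < q).card : ℝ) *
      (1 / 2) ^ q ≤ K ^ n * (1 - 1 / ((2 * K : ℕ) : ℝ)) ^ X.card := by
    rw [← mgf c X, card_eq_sum_ones, Nat.cast_sum, sum_mul]
    calc ∑ h ∈ (univ : Finset (Fin n → Fin K)).filter (fun h => hit c h X < q),
          ((1 : ℕ) : ℝ) * (1 / 2) ^ q
        ≤ ∑ h ∈ (univ : Finset (Fin n → Fin K)).filter (fun h => hit c h X < q),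
          ((1 : ℝ) / 2) ^ hit c h X := by
          refine sum_le_sum fun h hh => ?_
          rw [mem_filter] at hh
          rw [Nat.cast_one, one_mul]
          exact pow_le_pow_of_le_one (by norm_num) (by norm_num) hh.2.le
      _ ≤ ∑ h : Fin n → Fin K, ((1 : ℝ) / 2) ^ hit c h X :=
          sum_le_sum_of_subset_of_nonneg (filter_subset _ _) fun _ _ _ => by positivity
  have h2 : (1 - 1 / ((2 * K : ℕ) : ℝ)) ^ X.card ≤ ((1 / 2) ^ q * (1 / 2) ^ q : ℝ) := by
    have h3 : (1 - 1 / ((2 * K : ℕ) : ℝ)) ^ X.card =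
        ((1 - 1 / ((2 * K : ℕ) : ℝ)) ^ (2 * K)) ^ (2 * q) := by
      rw [← pow_mul, hX]
      congr 1
      ring
    rw [h3, ← pow_add, ← two_mul]
    apply pow_le_pow_left₀ _ (pow_half hK1)
    apply pow_nonneg
    have : 1 / ((2 * K : ℕ) : ℝ) ≤ 1 := by
      rw [div_le_one (by exact_mod_cast (show 0 < 2 * K by omega))]
      exact_mod_cast (show 1 ≤ 2 * K by omega)
    linarith
  have h4 : (0 : ℝ) < (1 / 2) ^ q := by positivity
  have h5 : (((univ : Finset (Fin n → Fin K)).filter fun h => hit c h X < q).card : ℝ) *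
      (1 / 2) ^ q ≤ (K ^ n * (1 / 2) ^ q) * (1 / 2) ^ q := by
    refine h1.trans ?_
    rw [mul_assoc]
    exact mul_le_mul_of_nonneg_left h2 (by positivity)
  exact le_of_mul_le_mul_right h5 h4

/-- The number of indices for which `X` is hit too rarely. -/
def badIdx (c : Fin K) (q : ℕ) (X : Finset (Fin n)) (f : Fin m → Fin n → Fin K) : ℕ :=
  ((univ : Finset (Fin m)).filter fun i => hit c (f i) X < q).card

theorem sum_badIdx (c : Fin K) (q : ℕ) (X : Finset (Fin n)) (hX : X.card = 4 * K * q) :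
    ∑ f : Fin m → Fin n → Fin K, ((2 : ℝ) ^ q) ^ badIdx c q X f ≤ (2 * K ^ n) ^ m := by
  classical
  have h1 : ∀ f : Fin m → Fin n → Fin K, ((2 : ℝ) ^ q) ^ badIdx c q X f =
      ∏ i, (if hit c (f i) X < q then (2 : ℝ) ^ q else 1) := by
    intro f
    rw [prod_ite, prod_const, prod_const_one, mul_one]
    rfl
  simp_rw [h1]
  rw [← Fintype.prod_sum (fun (_ : Fin m) (h : Fin n → Fin K) =>
    if hit c h X < q then (2 : ℝ) ^ q else 1)]
  rw [prod_const, card_univ, Fintype.card_fin]
  apply pow_le_pow_left₀ (sum_nonneg fun _ _ => by split_ifs <;> positivity)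
  have h2 : ∑ h : Fin n → Fin K, (if hit c h X < q then (2 : ℝ) ^ q else 1) ≤
      ∑ h : Fin n → Fin K, ((if hit c h X < q then (2 : ℝ) ^ q else 0) + 1) := by
    refine sum_le_sum fun h _ => ?_
    split_ifs
    · linarith
    · linarith
  refine h2.trans ?_
  rw [sum_add_distrib, ← sum_filter, sum_const, sum_const, nsmul_eq_mul, nsmul_eq_mul, mul_one]
  have h3 := bad_count c q X hX
  have h4 : (((univ : Finset (Fin n → Fin K)).filter fun h => hit c h X < q).card : ℝ) * 2 ^ q ≤
      K ^ n := by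
    calc (((univ : Finset (Fin n → Fin K)).filter fun h => hit c h X < q).card : ℝ) * 2 ^ q
        ≤ (K ^ n * (1 / 2) ^ q) * 2 ^ q := mul_le_mul_of_nonneg_right h3 (by positivity)
      _ = K ^ n := by
          rw [mul_assoc, ← mul_pow]
          norm_num
  have h5 : ((univ : Finset (Fin n → Fin K)).card : ℝ) = K ^ n := by
    simp
  rw [h5]
  linarith

/-- The functions which are bad for `X`. -/
theorem card_badFun (c : Fin K) (q μ : ℕ) (hq : 4 ≤ q) (hm : m = 4 * μ) (X : Finset (Fin n))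
    (hX : X.card = 4 * K * q) :
    (((univ : Finset (Fin m → Fin n → Fin K)).filter fun f => m ≤ 2 * badIdx c q X f).card : ℝ) *
      2 ^ (q * μ) ≤ ((K : ℝ) ^ n) ^ m := by
  have h1 : (((univ : Finset (Fin m → Fin n → Fin K)).filter
      fun f => m ≤ 2 * badIdx c q X f).card : ℝ) * 2 ^ (q * (2 * μ)) ≤ (2 * K ^ n) ^ m := by
    refine le_trans ?_ (sum_badIdx c q X hX)
    rw [card_eq_sum_ones, Nat.cast_sum, sum_mul]
    calc ∑ f ∈ (univ : Finset (Fin m → Fin n → Fin K)).filter
          (fun f => m ≤ 2 * badIdx c q X f), ((1 : ℕ) : ℝ) * 2 ^ (q * (2 * μ))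
        ≤ ∑ f ∈ (univ : Finset (Fin m → Fin n → Fin K)).filter
          (fun f => m ≤ 2 * badIdx c q X f), ((2 : ℝ) ^ q) ^ badIdx c q X f := by
          refine sum_le_sum fun f hf => ?_
          rw [mem_filter] at hf
          rw [Nat.cast_one, one_mul, ← pow_mul]
          apply pow_le_pow_right₀ (by norm_num)
          apply Nat.mul_le_mul_left
          omega
      _ ≤ _ := sum_le_sum_of_subset_of_nonneg (filter_subset _ _) fun _ _ _ => by positivity
  have h2 : ((2 : ℝ) * K ^ n) ^ m ≤ 2 ^ (q * μ) * ((K : ℝ) ^ n) ^ m := by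
    rw [mul_pow]
    apply mul_le_mul_of_nonneg_right _ (by positivity)
    apply pow_le_pow_right₀ (by norm_num)
    rw [hm]
    exact Nat.mul_le_mul_right μ hq
  have h3 : (((univ : Finset (Fin m → Fin n → Fin K)).filter
      fun f => m ≤ 2 * badIdx c q X f).card : ℝ) * 2 ^ (q * μ) * 2 ^ (q * μ) ≤
      ((K : ℝ) ^ n) ^ m * 2 ^ (q * μ) := by
    have e : (2 : ℝ) ^ (q * (2 * μ)) = 2 ^ (q * μ) * 2 ^ (q * μ) := by
      rw [← pow_add]
      congr 1
      ring
    rw [e] at h1
    calc _ = _ := by ring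
      _ ≤ (2 * (K : ℝ) ^ n) ^ m := h1
      _ ≤ _ := h2.trans (le_of_eq (mul_comm _ _))
  exact le_of_mul_le_mul_right h3 (by positivity)

open Classical in
/-- The functions which are bad for some large set. -/
noncomputable def badSet (n m : ℕ) (c : Fin K) : Finset (Fin m → Fin n → Fin K) :=
  univ.filter fun f => ∃ (q : ℕ) (X : Finset (Fin n)),
    4 ≤ q ∧ X.card = 4 * K * q ∧ m ≤ 2 * badIdx c q X f

theorem mem_badSet (c : Fin K) (f : Fin m → Fin n → Fin K) : f ∈ badSet n m c ↔
    ∃ (q : ℕ) (X : Finset (Fin n)), 4 ≤ q ∧ X.card = 4 * K * q ∧ m ≤ 2 * badIdx c q X f := by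
  simp [badSet]

theorem card_bad_union (c : Fin K) (ell : ℕ) (hn : 1 ≤ n) (hn2 : n ≤ 2 ^ ell)
    (hm : m = 4 * (4 * K * (ell + 2))) :
    ((badSet n m c).card : ℝ) ≤ ((K : ℝ) ^ n) ^ m * (1 / 3) := by
  classical
  have hK1 : 1 ≤ K := c.pos
  -- the exponent `q` is determined by `X`
  let idx := (univ : Finset (Finset (Fin n))).filter (fun X => X.Nonempty)
  let bad : Finset (Fin n) → Finset (Fin m → Fin n → Fin K) := fun X =>
    if 4 ≤ X.card / (4 * K) ∧ X.card = 4 * K * (X.card / (4 * K)) then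
      (univ : Finset (Fin m → Fin n → Fin K)).filter
        fun f => m ≤ 2 * badIdx c (X.card / (4 * K)) X f
    else ∅
  have hcov : badSet n m c ⊆ idx.biUnion bad := by
    intro f hf
    rw [mem_badSet] at hf
    obtain ⟨q, X, hq, hX, hb⟩ := hf
    have hdiv : X.card / (4 * K) = q := by
      rw [hX]
      exact Nat.mul_div_cancel_left q (by omega)
    rw [mem_biUnion]
    refine ⟨X, ?_, ?_⟩
    · simp only [idx, mem_filter, mem_univ, true_and]
      rw [← card_pos, hX]
      positivity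
    · simp only [bad]
      rw [if_pos (by rw [hdiv]; exact ⟨hq, hX⟩), mem_filter, hdiv]
      exact ⟨mem_univ _, hb⟩
  have hbad : ∀ X ∈ idx, ((bad X).card : ℝ) ≤
      ((K : ℝ) ^ n) ^ m * ((1 : ℝ) / (4 * n)) ^ X.card := by
    intro X _
    simp only [bad]
    split_ifs with h
    · have h1 := card_badFun (n := n) (K := K) (m := m) c (X.card / (4 * K))
        (4 * K * (ell + 2)) h.1 hm X h.2
      set q := X.card / (4 * K) with hqdef
      have h2 : ((4 : ℝ) * n) ^ X.card ≤ 2 ^ (q * (4 * K * (ell + 2))) := by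
        have e : q * (4 * K * (ell + 2)) = (ell + 2) * X.card := by
          rw [h.2]
          ring
        rw [e, pow_mul]
        apply pow_le_pow_left₀ (by positivity)
        have : (4 * n : ℕ) ≤ 2 ^ (ell + 2) := by
          rw [pow_add]
          omega
        exact_mod_cast this
      rw [one_div, inv_pow, ← div_eq_mul_inv, le_div_iff₀ (by positivity)]
      exact (mul_le_mul_of_nonneg_left h2 (Nat.cast_nonneg _)).trans h1
    · simp only [card_empty, Nat.cast_zero]
      positivity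
  calc ((badSet n m c).card : ℝ)
      ≤ ((idx.biUnion bad).card : ℝ) := by exact_mod_cast card_le_card hcov
    _ ≤ ((∑ X ∈ idx, (bad X).card : ℕ) : ℝ) := Nat.cast_le.2 card_biUnion_le
    _ = ∑ X ∈ idx, ((bad X).card : ℝ) := by rw [Nat.cast_sum]
    _ ≤ ∑ X ∈ idx, ((K : ℝ) ^ n) ^ m * ((1 : ℝ) / (4 * n)) ^ X.card := sum_le_sum hbad
    _ = ((K : ℝ) ^ n) ^ m * ∑ X ∈ idx, ((1 : ℝ) / (4 * n)) ^ X.card := by rw [mul_sum]
    _ ≤ ((K : ℝ) ^ n) ^ m * (1 / 3) :=
        mul_le_mul_of_nonneg_left (sum_inv_pow hn) (by positivity)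

/-! #### The second moment -/

theorem card_fix (c : Fin K) (Z : Finset (Fin n)) :
    (((univ : Finset (Fin n → Fin K)).filter fun h => ∀ z ∈ Z, h z = c).card : ℝ) =
      K ^ n * (1 / K) ^ Z.card := by
  classical
  have hK : (0 : ℝ) < K := by exact_mod_cast c.pos
  have h1 : ((univ : Finset (Fin n → Fin K)).filter fun h => ∀ z ∈ Z, h z = c) =
      Fintype.piFinset (fun z => if z ∈ Z then {c} else univ) := by
    ext h
    simp only [mem_filter, mem_univ, true_and, Fintype.mem_piFinset]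
    refine forall_congr' fun z => ?_
    by_cases hz : z ∈ Z <;> simp [hz]
  rw [h1, Fintype.card_piFinset, Nat.cast_prod]
  have h2 : ∀ z : Fin n, (((if z ∈ Z then ({c} : Finset (Fin K)) else univ).card : ℕ) : ℝ) =
      K * (if z ∈ Z then (1 / K : ℝ) else 1) := by
    intro z
    by_cases hz : z ∈ Z
    · simp only [hz, if_true, card_singleton, Nat.cast_one]
      field_simp
    · simp [hz]
  simp_rw [h2]
  rw [prod_mul_distrib, prod_const, card_univ, Fintype.card_fin, prod_ite, prod_const,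
    prod_const_one, mul_one]
  congr 3
  ext x
  simp

theorem sum_hit_sq (c : Fin K) :
    ∑ h : Fin n → Fin K, ((hit c h univ : ℕ) : ℝ) ^ 2 ≤
      K ^ n * ((n : ℝ) ^ 2 / K ^ 2 + n / K) := by
  classical
  have hK : (0 : ℝ) < K := by exact_mod_cast c.pos
  have h1 : ∀ h : Fin n → Fin K, ((hit c h univ : ℕ) : ℝ) ^ 2 =
      ∑ x : Fin n, ∑ y : Fin n, (if ∀ z ∈ ({x, y} : Finset (Fin n)), h z = c then (1 : ℝ) else 0) := by
    intro h
    have h2 : ((hit c h univ : ℕ) : ℝ) = ∑ x : Fin n, (if h x = c then (1 : ℝ) else 0) := by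
      rw [sum_boole]
      rfl
    rw [h2, sq, sum_mul_sum]
    refine sum_congr rfl fun x _ => sum_congr rfl fun y _ => ?_
    by_cases hx : h x = c <;> by_cases hy : h y = c <;> simp [hx, hy]
  simp_rw [h1]
  rw [sum_comm]
  have h3 : ∀ x : Fin n, ∑ h : Fin n → Fin K, ∑ y : Fin n,
      (if ∀ z ∈ ({x, y} : Finset (Fin n)), h z = c then (1 : ℝ) else 0) ≤
      K ^ n * (n / K ^ 2 + 1 / K) := by
    intro x
    rw [sum_comm]
    have h4 : ∀ y : Fin n, ∑ h : Fin n → Fin K,
        (if ∀ z ∈ ({x, y} : Finset (Fin n)), h z = c then (1 : ℝ) else 0) ≤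
        K ^ n * (1 / K ^ 2 + if y = x then (1 / K : ℝ) else 0) := by
      intro y
      rw [sum_boole, card_fix]
      apply mul_le_mul_of_nonneg_left _ (by positivity)
      by_cases hxy : y = x
      · subst hxy
        simp only [card_singleton, pow_one, if_true, pair_eq_singleton]
        have : (0 : ℝ) ≤ 1 / K ^ 2 := by positivity
        linarith
      · rw [card_pair (Ne.symm hxy), if_neg hxy, add_zero, div_pow, one_pow]
    refine (sum_le_sum fun y _ => h4 y).trans ?_
    rw [← mul_sum, sum_add_distrib, sum_const, sum_ite_eq' univ x]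
    simp only [card_univ, Fintype.card_fin, nsmul_eq_mul, mem_univ, if_true]
    apply le_of_eq
    ring
  refine (sum_le_sum fun x _ => h3 x).trans ?_
  rw [sum_const, card_univ, Fintype.card_fin, nsmul_eq_mul]
  apply le_of_eq
  ring

theorem sum_one_coord {ι α : Type} [Fintype ι] [DecidableEq ι] [Fintype α] (i : ι) (g : α → ℝ) :
    (Fintype.card α : ℝ) * ∑ f : ι → α, g (f i) =
      (Fintype.card α : ℝ) ^ Fintype.card ι * ∑ a, g a := by
  classical
  have h1 : ∀ f : ι → α, g (f i) = ∏ j, (if j = i then g (f j) else 1) := by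
    intro f
    rw [prod_ite_eq' univ i]
    simp
  simp_rw [h1]
  rw [← Fintype.prod_sum (fun (j : ι) (a : α) => if j = i then g a else 1),
    ← mul_prod_erase univ _ (mem_univ i)]
  simp only [if_true]
  have h2 : ∏ j ∈ univ.erase i, ∑ a : α, (if j = i then g a else 1) =
      (Fintype.card α : ℝ) ^ (Fintype.card ι - 1) := by
    calc ∏ j ∈ univ.erase i, ∑ a : α, (if j = i then g a else 1)
        = ∏ _j ∈ univ.erase i, (Fintype.card α : ℝ) := by
          refine prod_congr rfl fun j hj => ?_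
          rw [mem_erase] at hj
          simp only [hj.1, if_false, sum_const, card_univ, nsmul_eq_mul, mul_one]
      _ = _ := by rw [prod_const, card_erase_of_mem (mem_univ i), card_univ]
  rw [h2]
  have hpos : 0 < Fintype.card ι := Fintype.card_pos_iff.2 ⟨i⟩
  obtain ⟨k, hk⟩ : ∃ k, Fintype.card ι = k + 1 := ⟨Fintype.card ι - 1, by omega⟩
  rw [hk]
  simp only [Nat.add_sub_cancel]
  ring

theorem sum_total (c : Fin K) :
    ∑ f : Fin m → Fin n → Fin K, ∑ i, ((hit c (f i) univ : ℕ) : ℝ) ^ 2 ≤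
      ((K : ℝ) ^ n) ^ m * (m * ((n : ℝ) ^ 2 / K ^ 2 + n / K)) := by
  have hK : (0 : ℝ) < K := by exact_mod_cast c.pos
  rw [sum_comm]
  have h1 : ∀ i : Fin m, ∑ f : Fin m → Fin n → Fin K, ((hit c (f i) univ : ℕ) : ℝ) ^ 2 ≤
      ((K : ℝ) ^ n) ^ m * ((n : ℝ) ^ 2 / K ^ 2 + n / K) := by
    intro i
    have h2 := sum_one_coord (ι := Fin m) (α := Fin n → Fin K) i
      (fun h => ((hit c h univ : ℕ) : ℝ) ^ 2)
    have hcard : ((Fintype.card (Fin n → Fin K) : ℕ) : ℝ) = (K : ℝ) ^ n := by simp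
    rw [hcard, Fintype.card_fin] at h2
    have h3 := sum_hit_sq (n := n) c
    have hpos : (0 : ℝ) < (K : ℝ) ^ n := by positivity
    have h4 : (K : ℝ) ^ n * ∑ f : Fin m → Fin n → Fin K, ((hit c (f i) univ : ℕ) : ℝ) ^ 2 ≤
        (K : ℝ) ^ n * (((K : ℝ) ^ n) ^ m * ((n : ℝ) ^ 2 / K ^ 2 + n / K)) := by
      rw [h2]
      calc ((K : ℝ) ^ n) ^ m * ∑ h : Fin n → Fin K, ((hit c h univ : ℕ) : ℝ) ^ 2
          ≤ ((K : ℝ) ^ n) ^ m * (K ^ n * ((n : ℝ) ^ 2 / K ^ 2 + n / K)) :=
            mul_le_mul_of_nonneg_left h3 (by positivity)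
        _ = _ := by ring
    exact le_of_mul_le_mul_left h4 hpos
  refine (sum_le_sum fun i _ => h1 i).trans ?_
  rw [sum_const, card_univ, Fintype.card_fin, nsmul_eq_mul]
  apply le_of_eq
  ring

/-- The good family of functions. -/
theorem exists_family (ell : ℕ) (hn2 : n ≤ 2 ^ ell) (hK : K = 256 * (ell + 2))
    (hn : 256 * (ell + 2) ≤ n) (hm : m = 4 * (4 * K * (ell + 2))) (c : Fin K) :
    ∃ f : Fin m → Fin n → Fin K,
      (∀ (q : ℕ) (X : Finset (Fin n)), 4 ≤ q → X.card = 4 * K * q → 2 * badIdx c q X f < m) ∧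
      2 * ∑ i, (hit c (f i) univ) ^ 2 ≤ n ^ 2 := by
  classical
  by_contra hcon
  push Not at hcon
  have hn1 : 1 ≤ n := by omega
  have hKpos : (0 : ℝ) < K := by exact_mod_cast c.pos
  set T : ℝ := ((K : ℝ) ^ n) ^ m with hT
  have hTpos : 0 < T := by positivity
  let A := badSet n m c
  let B := (univ : Finset (Fin m → Fin n → Fin K)).filter fun f =>
    n ^ 2 < 2 * ∑ i, (hit c (f i) univ) ^ 2
  have hA : (A.card : ℝ) ≤ T * (1 / 3) := card_bad_union c ell hn1 hn2 hm
  have hB : (B.card : ℝ) ≤ T * (1 / 4) := by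
    have h1 : (B.card : ℝ) * (n : ℝ) ^ 2 ≤ 2 * (T * (m * ((n : ℝ) ^ 2 / K ^ 2 + n / K))) := by
      refine le_trans ?_ (mul_le_mul_of_nonneg_left (sum_total (m := m) (n := n) c) (by norm_num))
      rw [card_eq_sum_ones, Nat.cast_sum, sum_mul, mul_sum]
      calc ∑ f ∈ B, ((1 : ℕ) : ℝ) * (n : ℝ) ^ 2
          ≤ ∑ f ∈ B, 2 * ∑ i, ((hit c (f i) univ : ℕ) : ℝ) ^ 2 := by
            refine sum_le_sum fun f hf => ?_
            simp only [B, mem_filter, mem_univ, true_and] at hf
            rw [Nat.cast_one, one_mul]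
            exact_mod_cast hf.le
        _ ≤ _ := sum_le_sum_of_subset_of_nonneg (filter_subset _ _) fun _ _ _ => by positivity
    have hl : (0 : ℝ) < (ell : ℝ) + 2 := by positivity
    have hKr : (K : ℝ) = 256 * (ell + 2) := by rw [hK]; push_cast; ring
    have hmr : (m : ℝ) = 16 * K * (ell + 2) := by rw [hm]; push_cast; ring
    have hnr : 256 * ((ell : ℝ) + 2) ≤ n := by exact_mod_cast hn
    have hnpos : (0 : ℝ) < n := by exact_mod_cast hn1
    have h2 : (m : ℝ) * ((n : ℝ) ^ 2 / K ^ 2 + n / K) = n ^ 2 / 16 + 16 * (ell + 2) * n := by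
      rw [hmr]
      have : (ell : ℝ) + 2 = K / 256 := by rw [hKr]; ring
      rw [this]
      field_simp
      ring
    rw [h2] at h1
    have h3 : (n : ℝ) ^ 2 / 16 + 16 * (ell + 2) * n ≤ n ^ 2 / 8 := by nlinarith
    have h4 : (B.card : ℝ) * (n : ℝ) ^ 2 ≤ (T * (1 / 4)) * (n : ℝ) ^ 2 := by
      refine h1.trans ?_
      have := mul_le_mul_of_nonneg_left h3 hTpos.le
      linarith
    exact le_of_mul_le_mul_right h4 (by positivity)
  have hcov : (univ : Finset (Fin m → Fin n → Fin K)) ⊆ A ∪ B := by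
    intro f _
    rw [mem_union]
    by_cases h : ∀ (q : ℕ) (X : Finset (Fin n)), 4 ≤ q → X.card = 4 * K * q →
        2 * badIdx c q X f < m
    · right
      simp only [B, mem_filter, mem_univ, true_and]
      exact hcon f h
    · left
      push Not at h
      obtain ⟨q, X, h1, h2, h3⟩ := h
      exact (mem_badSet c f).2 ⟨q, X, h1, h2, h3⟩
  have h1 := (card_le_card hcov).trans (card_union_le A B)
  have h2 : ((univ : Finset (Fin m → Fin n → Fin K)).card : ℝ) = T := by
    rw [card_univ]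
    simp [hT]
  have h3 : T ≤ A.card + B.card := by
    rw [← h2]
    exact_mod_cast h1
  linarith

end random

/-! ### The notions of the problem -/

/-- A bipartite graph with sides `Fin a` and `Fin b` and no isolated vertices. -/
structure BipGraph where
  /-- the size of the first side -/
  a : ℕ
  /-- the size of the second side -/
  b : ℕ
  /-- the edges -/
  E : Finset (Fin a × Fin b)
  left : ∀ x : Fin a, ∃ y, (x, y) ∈ E
  right : ∀ y : Fin b, ∃ x, (x, y) ∈ E

namespace BipGraph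

variable (G : BipGraph)

/-- `(X, Y)` is a biclique. -/
def IsBiclique (X : Finset (Fin G.a)) (Y : Finset (Fin G.b)) : Prop :=
  X.Nonempty ∧ Y.Nonempty ∧ X ×ˢ Y ⊆ G.E

/-- `H(s,t) = s t / (s + t)`. -/
noncomputable def H (s t : ℕ) : ℝ := (s : ℝ) * t / (s + t)

/-- `κ` of the subgraph of `G` induced by `X₀ ∪ Y₀`. -/
noncomputable def kappa (X₀ : Finset (Fin G.a)) (Y₀ : Finset (Fin G.b)) : ℝ :=
  sSup {h | ∃ X ⊆ X₀, ∃ Y ⊆ Y₀, G.IsBiclique X Y ∧ h = H X.card Y.card}

/-- The edges of the subgraph induced by `X₀ ∪ Y₀`. -/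
def edgesIn (X₀ : Finset (Fin G.a)) (Y₀ : Finset (Fin G.b)) : Finset (Fin G.a × Fin G.b) :=
  G.E ∩ X₀ ×ˢ Y₀

/-- `μ(G)`: the maximum of `|E(G')| / κ(G')` over the induced subgraphs `G'` with an edge. -/
noncomputable def mu : ℝ :=
  sSup {r | ∃ X₀ Y₀, (G.edgesIn X₀ Y₀).Nonempty ∧ r = (G.edgesIn X₀ Y₀).card / G.kappa X₀ Y₀}

/-- `η(E')`. -/
noncomputable def eta (E' : Finset (Fin G.a × Fin G.b)) : ℝ :=
  sInf {r | ∃ X Y, G.IsBiclique X Y ∧ (E' ∩ X ×ˢ Y).Nonempty ∧
    r = ((X.card : ℝ) + Y.card) / (E' ∩ X ×ˢ Y).card}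

/-- `η*(G)`. -/
noncomputable def etaStar : ℝ :=
  sSup {r | ∃ E' ⊆ G.E, E'.Nonempty ∧ r = E'.card * G.eta E'}

end BipGraph

open BipGraph

/-- `g(n)`: the maximum of `η*(G) / μ(G)` over the bipartite graphs (with an edge) on at most `n`
vertices. -/
noncomputable def g (n : ℕ) : ℝ :=
  sSup {r | ∃ G : BipGraph, G.a + G.b ≤ n ∧ G.E.Nonempty ∧ r = G.etaStar / G.mu}

/-! ### Elementary facts -/

theorem H_le (s t : ℕ) (hs : 0 < s) (ht : 0 < t) : H s t ≤ ((s : ℝ) + t) / 4 := by
  unfold H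
  have h1 : (0 : ℝ) < s := by exact_mod_cast hs
  have h2 : (0 : ℝ) < t := by exact_mod_cast ht
  rw [div_le_div_iff₀ (by positivity) (by norm_num)]
  nlinarith [sq_nonneg ((s : ℝ) - t)]

theorem H_mono {s t s' t' : ℕ} (hs : 0 < s) (ht : 0 < t) (hs' : s ≤ s') (ht' : t ≤ t') :
    H s t ≤ H s' t' := by
  unfold H
  have h1 : (0 : ℝ) < s := by exact_mod_cast hs
  have h2 : (0 : ℝ) < t := by exact_mod_cast ht
  have h3 : (s : ℝ) ≤ s' := by exact_mod_cast hs'
  have h4 : (t : ℝ) ≤ t' := by exact_mod_cast ht'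
  rw [div_le_div_iff₀ (by positivity) (by linarith)]
  have h5 : (s : ℝ) * s' * t ≤ s * s' * t' := mul_le_mul_of_nonneg_left h4 (by nlinarith)
  have h6 : (s : ℝ) * t * t' ≤ s' * t * t' := by
    apply mul_le_mul_of_nonneg_right _ (by linarith)
    apply mul_le_mul_of_nonneg_right h3 h2.le
  nlinarith

section basic

variable (G : BipGraph)

theorem kappa_bdd (X₀ : Finset (Fin G.a)) (Y₀ : Finset (Fin G.b)) :
    BddAbove {h | ∃ X ⊆ X₀, ∃ Y ⊆ Y₀, G.IsBiclique X Y ∧ h = H X.card Y.card} := by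
  refine ⟨((G.a : ℝ) + G.b) / 4, ?_⟩
  rintro h ⟨X, _, Y, _, hXY, rfl⟩
  refine (H_le _ _ (card_pos.2 hXY.1) (card_pos.2 hXY.2.1)).trans ?_
  have h1 : X.card ≤ G.a := by simpa using card_le_univ X
  have h2 : Y.card ≤ G.b := by simpa using card_le_univ Y
  have h1' : (X.card : ℝ) ≤ G.a := by exact_mod_cast h1
  have h2' : (Y.card : ℝ) ≤ G.b := by exact_mod_cast h2
  linarith

theorem le_kappa {X₀ X : Finset (Fin G.a)} {Y₀ Y : Finset (Fin G.b)} (hX : X ⊆ X₀) (hY : Y ⊆ Y₀)
    (h : G.IsBiclique X Y) : H X.card Y.card ≤ G.kappa X₀ Y₀ :=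
  le_csSup (kappa_bdd G X₀ Y₀) ⟨X, hX, Y, hY, h, rfl⟩

theorem isBiclique_single {e : Fin G.a × Fin G.b} (he : e ∈ G.E) : G.IsBiclique {e.1} {e.2} := by
  refine ⟨singleton_nonempty _, singleton_nonempty _, ?_⟩
  rw [singleton_product_singleton]
  simpa using he

theorem half_le_kappa {X₀ : Finset (Fin G.a)} {Y₀ : Finset (Fin G.b)}
    (h : (G.edgesIn X₀ Y₀).Nonempty) : 1 / 2 ≤ G.kappa X₀ Y₀ := by
  obtain ⟨e, he⟩ := h
  unfold edgesIn at he
  rw [mem_inter, mem_product] at he
  have h1 := le_kappa G (singleton_subset_iff.2 he.2.1) (singleton_subset_iff.2 he.2.2)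
    (isBiclique_single G he.1)
  refine le_trans ?_ h1
  unfold H
  simp only [card_singleton]
  norm_num

theorem kappa_le (X₀ : Finset (Fin G.a)) (Y₀ : Finset (Fin G.b)) :
    G.kappa X₀ Y₀ ≤ ((G.a : ℝ) + G.b) / 4 := by
  apply Real.sSup_le
  · rintro h ⟨X, _, Y, _, hXY, rfl⟩
    refine (H_le _ _ (card_pos.2 hXY.1) (card_pos.2 hXY.2.1)).trans ?_
    have h1 : X.card ≤ G.a := by simpa using card_le_univ X
    have h2 : Y.card ≤ G.b := by simpa using card_le_univ Y
    have h1' : (X.card : ℝ) ≤ G.a := by exact_mod_cast h1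
    have h2' : (Y.card : ℝ) ≤ G.b := by exact_mod_cast h2
    linarith
  · positivity

theorem mu_bdd :
    BddAbove {r | ∃ X₀ Y₀, (G.edgesIn X₀ Y₀).Nonempty ∧
      r = (G.edgesIn X₀ Y₀).card / G.kappa X₀ Y₀} := by
  refine ⟨2 * G.E.card, ?_⟩
  rintro r ⟨X₀, Y₀, h, rfl⟩
  have h1 := half_le_kappa G h
  rw [div_le_iff₀ (by linarith)]
  have h2 : ((G.edgesIn X₀ Y₀).card : ℝ) ≤ G.E.card := by
    exact_mod_cast card_le_card inter_subset_left
  have h3 : (0 : ℝ) ≤ G.E.card := Nat.cast_nonneg _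
  nlinarith

theorem le_mu {X₀ : Finset (Fin G.a)} {Y₀ : Finset (Fin G.b)} (h : (G.edgesIn X₀ Y₀).Nonempty) :
    (G.edgesIn X₀ Y₀).card / G.kappa X₀ Y₀ ≤ G.mu :=
  le_csSup (mu_bdd G) ⟨X₀, Y₀, h, rfl⟩

theorem edgesIn_univ : G.edgesIn univ univ = G.E := by
  unfold edgesIn
  simp

theorem eta_le_two {E' : Finset (Fin G.a × Fin G.b)} (hE : E' ⊆ G.E) (hne : E'.Nonempty) :
    G.eta E' ≤ 2 := by
  obtain ⟨e, he⟩ := hne
  apply csInf_le
  · refine ⟨0, ?_⟩
    rintro r ⟨X, Y, _, _, rfl⟩
    positivity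
  · refine ⟨{e.1}, {e.2}, isBiclique_single G (hE he), ?_, ?_⟩
    · rw [singleton_product_singleton]
      exact ⟨e, by simpa using he⟩
    · rw [singleton_product_singleton]
      have : E' ∩ {(e.1, e.2)} = {e} := by
        ext z
        simp only [mem_inter, mem_singleton]
        constructor
        · rintro ⟨_, h⟩
          exact h
        · rintro rfl
          exact ⟨he, rfl⟩
      rw [this]
      simp only [card_singleton]
      norm_num

theorem etaStar_bdd : BddAbove {r | ∃ E' ⊆ G.E, E'.Nonempty ∧ r = E'.card * G.eta E'} := by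
  refine ⟨G.E.card * 2, ?_⟩
  rintro r ⟨E', hE, hne, rfl⟩
  have h1 := eta_le_two G hE hne
  have h2 : (E'.card : ℝ) ≤ G.E.card := by exact_mod_cast card_le_card hE
  have h3 : (0 : ℝ) ≤ E'.card := Nat.cast_nonneg _
  nlinarith

theorem etaStar_le : G.etaStar ≤ G.E.card * 2 := by
  apply Real.sSup_le
  · rintro r ⟨E', hE, hne, rfl⟩
    have h1 := eta_le_two G hE hne
    have h2 : (E'.card : ℝ) ≤ G.E.card := by exact_mod_cast card_le_card hE
    have h3 : (0 : ℝ) ≤ E'.card := Nat.cast_nonneg _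
    nlinarith
  · positivity

theorem ratio_le (hne : G.E.Nonempty) : G.etaStar / G.mu ≤ G.a + G.b := by
  have h0 : (G.edgesIn univ univ).Nonempty := by rwa [edgesIn_univ]
  have h1 := le_mu G h0
  rw [edgesIn_univ] at h1
  have hk := half_le_kappa G h0
  have hk2 := kappa_le G univ univ
  have hE : (0 : ℝ) < G.E.card := by exact_mod_cast card_pos.2 hne
  have hmu : 0 < G.mu := lt_of_lt_of_le (by positivity) h1
  rw [div_le_iff₀ hmu]
  rw [div_le_iff₀ (by linarith)] at h1
  have h2 := etaStar_le G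
  nlinarith

end basic

theorem g_bdd (n : ℕ) :
    BddAbove {r | ∃ G : BipGraph, G.a + G.b ≤ n ∧ G.E.Nonempty ∧ r = G.etaStar / G.mu} := by
  refine ⟨n, ?_⟩
  rintro r ⟨G, hG, hne, rfl⟩
  refine (ratio_le G hne).trans ?_
  exact_mod_cast hG

theorem g_le (n : ℕ) : g n ≤ n := by
  apply Real.sSup_le
  · rintro r ⟨G, hG, hne, rfl⟩
    refine (ratio_le G hne).trans ?_
    exact_mod_cast hG
  · positivity

/-! ### The construction -/

theorem pow_bound (ell : ℕ) (h : 12 ≤ ell) : 256 * (ell + 2) ≤ 2 ^ ell := by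
  induction ell, h using Nat.le_induction with
  | base => norm_num
  | succ k hk ih =>
    rw [pow_succ]
    omega

theorem construction (ell : ℕ) (h : 12 ≤ ell) : ∃ G : BipGraph, G.a = 2 ^ ell ∧ G.b = 2 ^ ell ∧
    G.E.Nonempty ∧ (2 : ℝ) ^ ell / (65536 * ((ell : ℝ) + 2) ^ 2) ≤ G.etaStar / G.mu := by
  classical
  obtain ⟨n, hndef⟩ : ∃ n, n = 2 ^ ell := ⟨_, rfl⟩
  obtain ⟨K, hKdef⟩ : ∃ K, K = 256 * (ell + 2) := ⟨_, rfl⟩
  obtain ⟨m, hmdef⟩ : ∃ m, m = 4 * (4 * K * (ell + 2)) := ⟨_, rfl⟩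
  have hnK : 256 * (ell + 2) ≤ n := hndef ▸ pow_bound ell h
  have hKpos : 0 < K := by omega
  have hn1 : 1 ≤ n := by omega
  let c : Fin K := ⟨0, hKpos⟩
  obtain ⟨f, hf1, hf2⟩ := exists_family (n := n) (K := K) (m := m) ell hndef.le hKdef hnK hmdef c
  let A : Fin m → Finset (Fin n) := fun i => univ.filter fun x => f i x = c
  let z : Fin n := ⟨0, hn1⟩
  let F : Finset (Fin n × Fin n) :=
    (univ.biUnion fun i => A i ×ˢ A i) ∪ (({z} : Finset (Fin n)) ×ˢ univ ∪ univ ×ˢ {z})
  have hFcard : 2 * F.card ≤ n ^ 2 + 4 * n := by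
    have h1 : (univ.biUnion fun i => A i ×ˢ A i).card ≤ ∑ i, (hit c (f i) univ) ^ 2 := by
      refine card_biUnion_le.trans (le_of_eq ?_)
      refine sum_congr rfl fun i _ => ?_
      rw [card_product, sq]
      rfl
    have h2 := card_union_le (univ.biUnion fun i => A i ×ˢ A i)
      (({z} : Finset (Fin n)) ×ˢ univ ∪ univ ×ˢ {z})
    have h3 := card_union_le (({z} : Finset (Fin n)) ×ˢ (univ : Finset (Fin n)))
      ((univ : Finset (Fin n)) ×ˢ ({z} : Finset (Fin n)))
    simp only [card_product, card_singleton, card_univ, Fintype.card_fin, one_mul, mul_one] at h3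
    change F.card ≤ _ at h2
    omega
  have hL : 4 * n ≤ 2 ^ (ell + 2) := by
    rw [pow_add]
    omega
  obtain ⟨S, hS1, hS2, hS3⟩ := exists_half hn1 F (ell + 2) hL
  have hFc : Fᶜ.card = n * n - F.card := by
    rw [card_compl, Fintype.card_prod, Fintype.card_fin]
  have hn2 : 3584 ≤ n := by omega
  have hScard : n ^ 2 ≤ 8 * S.card := by
    have h1 : 8 * n ≤ n * n := Nat.mul_le_mul_right n (by omega)
    rw [hFc] at hS2
    rw [sq] at hFcard ⊢
    omega
  have hzF : ∀ x, (z, x) ∈ F := fun x => by simp [F]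
  have hzF' : ∀ x, (x, z) ∈ F := fun x => by simp [F]
  let G : BipGraph :=
    { a := n
      b := n
      E := S ∪ F
      left := fun x => ⟨z, mem_union_right _ (hzF' x)⟩
      right := fun y => ⟨z, mem_union_right _ (hzF y)⟩ }
  have hSpos : 0 < S.card := by
    have : 0 < n ^ 2 := by positivity
    omega
  have hSne : S.Nonempty := card_pos.1 hSpos
  have hSE : S ⊆ G.E := subset_union_left
  have hEne : G.E.Nonempty := hSne.mono hSE
  have hl : (0 : ℝ) < (ell : ℝ) + 2 := by positivity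
  -- the lower bound for `η*`
  have heta : 1 / ((ell : ℝ) + 2) ≤ G.eta S := by
    apply le_csInf
    · obtain ⟨e, he⟩ := hSne
      refine ⟨_, {e.1}, {e.2}, isBiclique_single G (hSE he), ?_, rfl⟩
      rw [singleton_product_singleton]
      exact ⟨e, by simpa using he⟩
    · rintro r ⟨X, Y, hXY, hne, rfl⟩
      have h1 := hS3 X Y hXY.1 hXY.2.1 hXY.2.2
      have h2 : (0 : ℝ) < (S ∩ X ×ˢ Y).card := by exact_mod_cast card_pos.2 hne
      rw [div_le_div_iff₀ hl h2, one_mul]
      have h3 : ((S ∩ X ×ˢ Y).card : ℝ) ≤ ((ell + 2) * (X.card + Y.card) : ℕ) := by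
        exact_mod_cast h1.le
      push_cast at h3
      linarith
  have hetaStar : (S.card : ℝ) * (1 / ((ell : ℝ) + 2)) ≤ G.etaStar := by
    refine le_trans (mul_le_mul_of_nonneg_left heta (Nat.cast_nonneg _)) ?_
    exact le_csSup (etaStar_bdd G) ⟨S, hSE, hSne, rfl⟩
  -- the upper bound for `μ`
  have hKr : (0 : ℝ) < K := by exact_mod_cast hKpos
  have hnr : (0 : ℝ) < n := by exact_mod_cast hn1
  have hmu : G.mu ≤ 32 * K * n := by
    apply Real.sSup_le
    · rintro r ⟨X₀, Y₀, hne, rfl⟩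
      have hhalf := half_le_kappa G hne
      have hcard : (G.edgesIn X₀ Y₀).card ≤ X₀.card * Y₀.card := by
        rw [← card_product]
        exact card_le_card inter_subset_right
      have ha : X₀.card ≤ n := by simpa using card_le_univ X₀
      have hb : Y₀.card ≤ n := by simpa using card_le_univ Y₀
      rw [div_le_iff₀ (by linarith)]
      by_cases hbig : 16 * K ≤ X₀.card ∧ 16 * K ≤ Y₀.card
      · obtain ⟨hbX, hbY⟩ := hbig
        set q := X₀.card / (4 * K) with hq
        set q' := Y₀.card / (4 * K) with hq'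
        have h4K : 0 < 4 * K := by omega
        have hq4 : 4 ≤ q := (Nat.le_div_iff_mul_le h4K).2 (by nlinarith)
        have hq4' : 4 ≤ q' := (Nat.le_div_iff_mul_le h4K).2 (by nlinarith)
        have hqle : 4 * K * q ≤ X₀.card := Nat.mul_div_le _ _
        have hqle' : 4 * K * q' ≤ Y₀.card := Nat.mul_div_le _ _
        have hqlt : X₀.card ≤ 8 * K * q := by
          have := Nat.lt_mul_div_succ X₀.card h4K
          rw [← hq] at this
          nlinarith
        have hqlt' : Y₀.card ≤ 8 * K * q' := by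
          have := Nat.lt_mul_div_succ Y₀.card h4K
          rw [← hq'] at this
          nlinarith
        obtain ⟨X₁, hX1, hX1c⟩ := exists_subset_card_eq hqle
        obtain ⟨Y₁, hY1, hY1c⟩ := exists_subset_card_eq hqle'
        have b1 := hf1 q X₁ hq4 hX1c
        have b2 := hf1 q' Y₁ hq4' hY1c
        obtain ⟨i, hi1, hi2⟩ : ∃ i, q ≤ hit c (f i) X₁ ∧ q' ≤ hit c (f i) Y₁ := by
          by_contra hcon
          push Not at hcon
          have hcov : (univ : Finset (Fin m)) ⊆
              (univ.filter fun i => hit c (f i) X₁ < q) ∪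
              (univ.filter fun i => hit c (f i) Y₁ < q') := by
            intro i _
            rw [mem_union, mem_filter, mem_filter]
            by_cases h1 : hit c (f i) X₁ < q
            · exact Or.inl ⟨mem_univ _, h1⟩
            · exact Or.inr ⟨mem_univ _, hcon i (not_lt.1 h1)⟩
          have h1 := (card_le_card hcov).trans (card_union_le _ _)
          rw [card_univ, Fintype.card_fin] at h1
          change m ≤ badIdx c q X₁ f + badIdx c q' Y₁ f at h1
          omega
        let X := X₁.filter fun x => f i x = c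
        let Y := Y₁.filter fun x => f i x = c
        have hXc : q ≤ X.card := hi1
        have hYc : q' ≤ Y.card := hi2
        have hbic : G.IsBiclique X Y := by
          refine ⟨card_pos.1 (by omega), card_pos.1 (by omega), ?_⟩
          intro e he
          rw [mem_product] at he
          apply mem_union_right
          apply mem_union_left
          rw [mem_biUnion]
          refine ⟨i, mem_univ _, ?_⟩
          rw [mem_product]
          exact ⟨mem_filter.2 ⟨mem_univ _, (mem_filter.1 he.1).2⟩,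
            mem_filter.2 ⟨mem_univ _, (mem_filter.1 he.2).2⟩⟩
        have hk := le_kappa G ((filter_subset _ _).trans hX1) ((filter_subset _ _).trans hY1) hbic
        have hk2 : H q q' ≤ G.kappa X₀ Y₀ := (H_mono (by omega) (by omega) hXc hYc).trans hk
        have hqr : (0 : ℝ) < q := by exact_mod_cast (show 0 < q by omega)
        have hqr' : (0 : ℝ) < q' := by exact_mod_cast (show 0 < q' by omega)
        have har : (X₀.card : ℝ) ≤ n := by exact_mod_cast ha
        have hbr : (Y₀.card : ℝ) ≤ n := by exact_mod_cast hb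
        have hlt : (X₀.card : ℝ) ≤ 8 * K * q := by exact_mod_cast hqlt
        have hlt' : (Y₀.card : ℝ) ≤ 8 * K * q' := by exact_mod_cast hqlt'
        have hcr : ((G.edgesIn X₀ Y₀).card : ℝ) ≤ X₀.card * Y₀.card := by exact_mod_cast hcard
        have hmain : (X₀.card : ℝ) * Y₀.card ≤ 32 * K * n * H q q' := by
          unfold H
          rw [← mul_div_assoc, le_div_iff₀ (by positivity)]
          have e1 : (X₀.card : ℝ) * Y₀.card * q ≤ n * (8 * K * q') * q := by
            apply mul_le_mul_of_nonneg_right _ hqr.le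
            exact mul_le_mul har hlt' (Nat.cast_nonneg _) hnr.le
          have e2 : (X₀.card : ℝ) * Y₀.card * q' ≤ (8 * K * q) * n * q' := by
            apply mul_le_mul_of_nonneg_right _ hqr'.le
            exact mul_le_mul hlt hbr (Nat.cast_nonneg _) (by positivity)
          have e3 : (0 : ℝ) < n * K * (q * q') := by positivity
          nlinarith
        calc ((G.edgesIn X₀ Y₀).card : ℝ) ≤ X₀.card * Y₀.card := hcr
          _ ≤ 32 * K * n * H q q' := hmain
          _ ≤ 32 * K * n * G.kappa X₀ Y₀ := mul_le_mul_of_nonneg_left hk2 (by positivity)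
      · have hsmall : X₀.card * Y₀.card ≤ 16 * K * n := by
          rw [not_and_or] at hbig
          rcases hbig with hs | hs
          · exact Nat.mul_le_mul (by omega) hb
          · rw [mul_comm]
            exact Nat.mul_le_mul (by omega) ha
        have hsr : ((G.edgesIn X₀ Y₀).card : ℝ) ≤ 16 * K * n := by
          exact_mod_cast hcard.trans hsmall
        have : (0 : ℝ) < K * n := by positivity
        nlinarith
    · positivity
  have hmupos : 0 < G.mu := by
    have h0 : (G.edgesIn univ univ).Nonempty := by rwa [edgesIn_univ]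
    refine lt_of_lt_of_le ?_ (le_mu G h0)
    have h1 := half_le_kappa G h0
    have h2 : (0 : ℝ) < (G.edgesIn univ univ).card := by exact_mod_cast card_pos.2 h0
    exact div_pos h2 (by linarith)
  refine ⟨G, hndef, hndef, hEne, ?_⟩
  rw [le_div_iff₀ hmupos]
  have hSr : (n : ℝ) ^ 2 ≤ 8 * S.card := by exact_mod_cast hScard
  have hnn : (n : ℝ) = 2 ^ ell := by rw [hndef]; push_cast; rfl
  have hKK : (K : ℝ) = 256 * (ell + 2) := by rw [hKdef]; push_cast; ring
  rw [← hnn]
  calc (n : ℝ) / (65536 * ((ell : ℝ) + 2) ^ 2) * G.mu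
      ≤ (n : ℝ) / (65536 * ((ell : ℝ) + 2) ^ 2) * (32 * K * n) :=
        mul_le_mul_of_nonneg_left hmu (by positivity)
    _ = (n : ℝ) ^ 2 / 8 * (1 / (ell + 2)) := by
        rw [hKK]
        field_simp
        norm_num
    _ ≤ (S.card : ℝ) * (1 / ((ell : ℝ) + 2)) := by
        apply mul_le_mul_of_nonneg_right _ (by positivity)
        linarith
    _ ≤ G.etaStar := hetaStar

theorem g_lower (ell n : ℕ) (h : 12 ≤ ell) (hn : 2 ^ (ell + 1) ≤ n) :
    (2 : ℝ) ^ ell / (65536 * ((ell : ℝ) + 2) ^ 2) ≤ g n := by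
  obtain ⟨G, ha, hb, hne, hr⟩ := construction ell h
  refine hr.trans (le_csSup (g_bdd n) ⟨G, ?_, hne, rfl⟩)
  rw [ha, hb]
  rw [pow_succ] at hn
  omega

theorem g_lower' (n : ℕ) (hn : 2 ^ 13 ≤ n) :
    (1 / 2000000 : ℝ) * n / (Real.log n) ^ 2 ≤ g n := by
  set k := Nat.log 2 n with hk
  have hn0 : n ≠ 0 := by
    intro h
    rw [h] at hn
    norm_num at hn
  have hk13 : 13 ≤ k := by
    rw [hk]
    exact (Nat.le_log_iff_pow_le (by norm_num) hn0).2 hn
  have hle : 2 ^ k ≤ n := Nat.pow_log_le_self 2 hn0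
  have hlt : n < 2 ^ (k + 1) := Nat.lt_pow_succ_log_self (by norm_num) n
  obtain ⟨ell, hell⟩ : ∃ ell, k = ell + 1 := ⟨k - 1, by omega⟩
  have h1 := g_lower ell n (by omega) (by rw [← hell]; exact hle)
  refine le_trans ?_ h1
  have hlog : (k : ℝ) * Real.log 2 ≤ Real.log n := by
    rw [← Real.log_pow]
    apply Real.log_le_log (by positivity)
    exact_mod_cast hle
  have hlog2 := Real.log_two_gt_d9
  have hlogpos : 0 < Real.log n := by
    have : (0 : ℝ) < k := by exact_mod_cast (show 0 < k by omega)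
    nlinarith
  have hkr : (k : ℝ) = ell + 1 := by rw [hell]; push_cast; ring
  have hellr : (12 : ℝ) ≤ ell := by exact_mod_cast (show 12 ≤ ell by omega)
  have hn4 : (n : ℝ) ≤ 4 * 2 ^ ell := by
    have : (n : ℝ) < 2 ^ (k + 1) := by exact_mod_cast hlt
    rw [hell] at this
    have e : (2 : ℝ) ^ (ell + 1 + 1) = 4 * 2 ^ ell := by
      rw [pow_succ, pow_succ]
      ring
    rw [e] at this
    exact this.le
  -- `ell + 2 ≤ (14 / 13) (ell + 1)` and `ell + 1 ≤ log n / log 2`
  have hb : ((ell : ℝ) + 2) ≤ 1.56 * Real.log n := by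
    have h2 : ((ell : ℝ) + 1) * 0.693 ≤ Real.log n := by
      rw [hkr] at hlog
      have : ((ell : ℝ) + 1) * 0.693 ≤ (ell + 1) * Real.log 2 := by
        apply mul_le_mul_of_nonneg_left _ (by linarith)
        linarith
      linarith
    nlinarith
  have hsq : ((ell : ℝ) + 2) ^ 2 ≤ (1.56 * Real.log n) ^ 2 :=
    pow_le_pow_left₀ (by linarith) hb 2
  rw [div_le_div_iff₀ (by positivity) (by positivity)]
  have hP : (0 : ℝ) < 2 ^ ell := by positivity
  have hL2 : 0 < (Real.log n) ^ 2 := by positivity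
  calc (1 / 2000000 : ℝ) * n * (65536 * ((ell : ℝ) + 2) ^ 2)
      ≤ (1 / 2000000 : ℝ) * (4 * 2 ^ ell) * (65536 * (1.56 * Real.log n) ^ 2) := by
        apply mul_le_mul _ _ (by positivity) (by positivity)
        · apply mul_le_mul_of_nonneg_left hn4 (by norm_num)
        · apply mul_le_mul_of_nonneg_left hsq (by norm_num)
    _ ≤ 2 ^ ell * (Real.log n) ^ 2 := by
        have : (1 / 2000000 : ℝ) * (4 * 2 ^ ell) * (65536 * (1.56 * Real.log n) ^ 2) =
            (1 / 2000000 * 4 * 65536 * 1.56 ^ 2) * (2 ^ ell * (Real.log n) ^ 2) := by ring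
        rw [this]
        have h5 : (1 / 2000000 * 4 * 65536 * 1.56 ^ 2 : ℝ) ≤ 1 := by norm_num
        have h6 : 0 < (2 : ℝ) ^ ell * (Real.log n) ^ 2 := by positivity
        nlinarith

/-- `g(n)` is of order `n` up to a factor `(log n)^2`; in particular it is not bounded by any
polylogarithmic function. -/
theorem result :
    (∀ n : ℕ, 2 ^ 13 ≤ n → (1 / 2000000 : ℝ) * n / (Real.log n) ^ 2 ≤ g n ∧ g n ≤ n) ∧
    (∀ k : ℕ, ∀ᶠ n : ℕ in Filter.atTop, ∃ G : BipGraph, G.a + G.b ≤ n ∧ G.E.Nonempty ∧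
      (Real.log n) ^ k * G.mu < G.etaStar) := by
  refine ⟨fun n hn => ⟨g_lower' n hn, g_le n⟩, fun k => ?_⟩
  have hlim : (fun x : ℝ => (Real.log x) ^ (k + 2)) =o[Filter.atTop] (fun x : ℝ => x) :=
    Real.isLittleO_pow_log_id_atTop
  have h1 := (hlim.comp_tendsto tendsto_natCast_atTop_atTop).bound
    (show (0 : ℝ) < 1 / 4000000 by norm_num)
  filter_upwards [h1, Filter.eventually_ge_atTop (2 ^ 13)] with n hn hn13
  simp only [Function.comp_apply, Real.norm_eq_abs] at hn
  have hn1 : (1 : ℝ) < n := by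
    have : (2 : ℝ) ^ 13 ≤ n := by exact_mod_cast hn13
    have h2 : (1 : ℝ) < 2 ^ 13 := by norm_num
    linarith
  have hlogpos : 0 < Real.log n := Real.log_pos hn1
  rw [abs_of_pos (by positivity), abs_of_pos (by linarith)] at hn
  have hg := g_lower' n hn13
  have hlt : (Real.log n) ^ k < g n := by
    refine lt_of_lt_of_le ?_ hg
    rw [lt_div_iff₀ (by positivity), ← pow_add]
    linarith
  obtain ⟨r, ⟨G, hG, hne, rfl⟩, hr⟩ := exists_lt_of_lt_csSup (by
    by_contra hemp
    rw [Set.not_nonempty_iff_eq_empty] at hemp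
    have : g n = 0 := by
      unfold g
      rw [hemp]
      exact Real.sSup_empty
    rw [this] at hlt
    have : 0 < (Real.log n) ^ k := by positivity
    linarith) hlt
  refine ⟨G, hG, hne, ?_⟩
  have hmupos : 0 < G.mu := by
    have h0 : (G.edgesIn univ univ).Nonempty := by rwa [edgesIn_univ]
    refine lt_of_lt_of_le ?_ (le_mu G h0)
    have h1 := half_le_kappa G h0
    have h2 : (0 : ℝ) < (G.edgesIn univ univ).card := by exact_mod_cast card_pos.2 h0
    exact div_pos h2 (by linarith)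
  rwa [lt_div_iff₀ hmupos] at hr

end Pool.Agent.Results.MP_28a56a_co.NearLinearGap
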